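import Pool.Agent.Run7.h942.SC.Main

/-!
# André's supercharacter theory is the coarsest one that keeps the single-box characters

Q1 of MP_1f99fc_al, in the affirmative.
-/

namespace Pool.Agent.Results.MP_1f99fc_al.CoarsestTheory

open Pool.Agent.Run7.h942.SC

/-- For every `n`, every finite field `F` and every nontrivial additive character `θ` of `F`, the
group `U_n(F)` has a supercharacter theory `T` which is André's theory, which contains all the
single-box supercharacters as irreducible characters, and which is coarser than or equal to every
supercharacter theory of `U_n(F)` that contains all the single-box supercharacters as irreducible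
characters. -/
theorem result (n : ℕ) (F : Type) [Field F] [Finite F] (θ : AddChar F ℂ) (hθ : θ ≠ 1) :
    ∃ T : SuperTheory (Uni n F), IsAndre θ T ∧ ContainsBoxes θ T ∧
      ∀ T' : SuperTheory (Uni n F), ContainsBoxes θ T' → T.Coarser T' :=
  main n F θ hθ

end Pool.Agent.Results.MP_1f99fc_al.CoarsestTheory
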